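import Pool.Agent.Lib.MP_e6fef2_lc.Bridge
import Pool.Agent.Lib.MP_e6fef2_lc.H1.Limb
import Pool.Agent.Lib.MP_e6fef2_lc.H1.Limc
import Pool.Agent.Lib.MP_e6fef2_lc.H11.Br2
import Pool.Agent.Lib.MP_e6fef2_lc.H15.Club
import Pool.Agent.Lib.MP_e6fef2_lc.H15.Fus
import Pool.Agent.Lib.MP_e6fef2_lc.H16.Kcc
import Pool.Agent.Lib.MP_e6fef2_lc.H2.Idx
import Pool.Agent.Lib.MP_e6fef2_lc.H25.Xnz
import Pool.Agent.Lib.MP_e6fef2_lc.H30.Tw1
import Pool.Agent.Lib.MP_e6fef2_lc.H36.Okg
import Pool.Agent.Lib.MP_e6fef2_lc.H36.Rec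
import Pool.Agent.Lib.MP_e6fef2_lc.H36.Step
import Pool.Agent.Lib.MP_e6fef2_lc.H42.Dmr
import Pool.Agent.Lib.MP_e6fef2_lc.H42.Rdl
import Pool.Agent.Lib.MP_e6fef2_lc.H42.Rdm
import Pool.Agent.Lib.MP_e6fef2_lc.H46.Fac
import Pool.Agent.Lib.MP_e6fef2_lc.H53.Br1
import Pool.Agent.Lib.MP_e6fef2_lc.H57.Alg
import Pool.Agent.Lib.MP_e6fef2_lc.H57.Lima
import Pool.Agent.Lib.MP_e6fef2_lc.H60.Pel
import Pool.Agent.Lib.MP_e6fef2_lc.H60.Top0
import Pool.Agent.Lib.MP_e6fef2_lc.H60.Topl
import Pool.Agent.Lib.MP_e6fef2_lc.H60.Tops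
import Pool.Agent.Lib.MP_e6fef2_lc.H60.Topt
import Pool.Agent.Lib.MP_e6fef2_lc.H68.Clo
import Pool.Agent.Lib.MP_e6fef2_lc.H68.Iter
import Pool.Agent.Lib.MP_e6fef2_lc.H68.Size
import Pool.Agent.Lib.MP_e6fef2_lc.H69.Gen
import Pool.Agent.Lib.MP_c5d73d_lc.F.H62.Roapi

/-!
# The iteration theorem and the bridge, assembled
-/

universe u v

open Cardinal

namespace Pool.Agent.Lib.MP_e6fef2_lc

theorem all_alg : AlgStatement.{u} := H57.alg
theorem all_alg2 : Alg2Statement.{u} := H57.alg2
theorem all_club : ClubStatement.{u} := H15.club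
theorem all_gen : GenStatement.{u} := H69.genM all_club
theorem all_pec : PecStatement.{u} := H69.pec all_club all_alg all_alg2 all_gen
theorem all_lima : LimaStatement.{u} := H57.lima
theorem all_limb : LimbStatement.{u} := H1.limb all_alg all_alg2
theorem all_limc : LimcStatement.{u} := H1.limc all_alg all_alg2 all_lima
theorem all_fus : FusStatement.{u} := H15.fus all_gen
theorem all_pel : PelStatement.{u} := H60.pel all_club all_fus
theorem all_dmr : DmrStatement.{u} := H42.dmr all_club all_alg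
theorem all_rdl : RdlStatement.{u} := H42.rdl all_club all_alg all_gen all_dmr
theorem all_rdm : RdmStatement.{u} := H42.rdm all_club all_alg all_fus all_dmr all_rdl
theorem all_idx : IdxStatement.{u} := H2.idx
theorem all_clo : CloStatement.{u} := H68.clo all_idx
theorem all_roapi : Pool.Agent.Lib.MP_c5d73d_lc.F.RoapiStatement.{u} :=
  Pool.Agent.Lib.MP_c5d73d_lc.F.H62.roapi
theorem all_size : SizeStatement.{u} := H68.size all_idx all_roapi all_alg all_dmr
theorem all_kcc : KccStatement.{u} := H16.kcc all_alg all_dmr all_idx all_clo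
theorem all_tw1 : Tw1Statement.{u} := H30.tw1
theorem all_fac : FacStatement.{u} := H46.fac all_alg all_pec all_tw1
theorem all_top0 : Top0Statement.{u} := H60.top0 all_size
theorem all_topl : ToplStatement.{u} :=
  H60.topl all_pec all_alg2 all_limc all_pel all_rdm all_idx all_size
theorem all_topt : ToptStatement.{u} := H60.topt
theorem all_tops : TopsStatement.{u} :=
  H60.tops all_alg all_alg2 all_pec all_tw1 all_idx all_size
theorem all_okg : OkgStatement.{u} := H36.okg all_alg all_alg2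
theorem all_rec : RecStatement.{u, v} := H36.recc
theorem all_step : StepStatement.{u} :=
  H36.step all_okg all_topl all_top0 all_topt all_tops all_tw1

/-- The iteration theorem. -/
theorem iteration : IterStatement.{u} :=
  H68.iter all_idx all_rec all_step all_okg all_limc all_pel all_kcc all_alg all_alg2 all_pec
    all_fac all_dmr

theorem all_xnz : XnzStatement.{u} := H25.xnz all_club all_alg all_dmr
theorem all_br1 : Br1Statement.{u} := H53.br1 all_club all_alg all_gen all_tw1
theorem all_br2 : Br2Statement.{u} := H11.br2 all_club all_gen all_xnz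
theorem all_br3 : Br3Statement.{u} := H11.br3 all_br1

end Pool.Agent.Lib.MP_e6fef2_lc
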