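import Pool.Agent.Lib.MP_e6fef2_lc.Base

/-!
# Chains of complete Boolean algebras: statements of the modules of the iteration
-/

universe u v

open Cardinal Filter

namespace Pool.Agent.Lib.MP_e6fef2_lc

open Pool.Agent.Lib.MP_100a6c_lc
open Pool.Agent.Lib.MP_c5d73d_lc.F (pr)

/-! ## Chains, threads, tops -/

section

variable {L : Type u} [LinearOrder L] (A : L → Type u) [∀ i, CompleteBooleanAlgebra (A i)]
  (f : ∀ i j, A i → A j)

/-- A chain of complete Boolean algebras (`f i j` matters for `i ≤ j` only). -/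
structure IsCh : Prop where
  ce : ∀ i j, i ≤ j → IsCE (f i j)
  id : ∀ i a, f i i a = a
  comp : ∀ i j k, i ≤ j → j ≤ k → ∀ a, f j k (f i j a) = f i k a

variable {A} in
/-- `q` is a thread along the sequence `i`. -/
def IsTh (i : ℕ → L) (q : ∀ n, A (i n)) : Prop :=
  ∀ n, prj (f (i n) (i (n + 1))) (q (n + 1)) = q n

/-- Threads bounded by `j` have the right infimum in `A j`. -/
def TPat (j : L) : Prop := ∀ i : ℕ → L, Monotone i → (∀ n, i n ≤ j) → ∀ q : ∀ n, A (i n),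
  IsTh f i q → prj (f (i 0) j) (⨅ n, f (i n) j (q n)) = q 0

/-- Elements with a countable support below `j` are dense in `A j`. -/
def DPat (j : L) : Prop := ∀ c : A j, c ≠ ⊥ → ∃ d ≤ c, d ≠ ⊥ ∧ ∃ s : Set L, s.Countable ∧
  s.Nonempty ∧ (∀ i ∈ s, i < j) ∧ d = ⨅ i ∈ s, f i j (prj (f i j) d)

variable {C : Type u} [CompleteBooleanAlgebra C] (e : ∀ i, A i → C)

/-- `C` is an algebra on top of the chain. -/
structure IsTop : Prop where
  ce : ∀ i, IsCE (e i)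
  comp : ∀ i j, i ≤ j → ∀ a, e j (f i j a) = e i a

/-- Threads have the right infimum in `C`. -/
def TP : Prop := ∀ i : ℕ → L, Monotone i → ∀ q : ∀ n, A (i n), IsTh f i q →
  prj (e (i 0)) (⨅ n, e (i n) (q n)) = q 0

/-- Elements with a countable support are dense in `C`. -/
def DP : Prop := ∀ c : C, c ≠ ⊥ → ∃ d ≤ c, d ≠ ⊥ ∧ ∃ s : Set L, s.Countable ∧ s.Nonempty ∧
  d = ⨅ i ∈ s, e i (prj (e i) d)

/-! ### The limit: threads with countable support -/

/-- Threads with a countable support. -/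
structure Thr where
  t : ∀ i, A i
  th : ∀ i j, i ≤ j → prj (f i j) (t j) = t i
  ne : ∀ i, t i ≠ ⊥
  supp : ∃ s : Set L, s.Countable ∧ s.Nonempty ∧ ∀ j, (∀ i ∈ s, i ≤ j) →
    t j = ⨅ i ∈ s, f i j (t i)

instance : Preorder (Thr A f) where
  le p q := ∀ i, p.t i ≤ q.t i
  le_refl _ _ := le_rfl
  le_trans _ _ _ h h' i := (h i).trans (h' i)

variable {A f} in
/-- The embedding of `A i` into the regular open algebra of the threads. -/
noncomputable def thE (i : L) (a : A i) : H1.RO (Thr A f) := ⨆ p : {p : Thr A f // p.t i ≤ a}, pr p.1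

end

/-- LIMA: restriction of a thread. -/
def LimaStatement : Prop := ∀ (L : Type u) [LinearOrder L] (A : L → Type u)
  [∀ i, CompleteBooleanAlgebra (A i)] (f : ∀ i j, A i → A j), IsCh A f →
  ∀ (p : Thr A f) (i : L) (a : A i), p.t i ⊓ a ≠ ⊥ →
    ∃ q : Thr A f, q ≤ p ∧ q.t i = p.t i ⊓ a ∧ ∀ r : Thr A f, r ≤ p → r.t i ≤ a → r ≤ q

/-- LIMB: a thread along a sequence extends to a thread. -/
def LimbStatement : Prop := ∀ (L : Type u) [LinearOrder L] (A : L → Type u)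
  [∀ i, CompleteBooleanAlgebra (A i)] (f : ∀ i j, A i → A j), IsCh A f → (∀ j, TPat A f j) →
  ∀ i : ℕ → L, Monotone i → ∀ q : ∀ n, A (i n), IsTh f i q → q 0 ≠ ⊥ →
    ∃ p : Thr A f, (∀ n, p.t (i n) = q n) ∧
      ∀ r : Thr A f, (∀ n, r.t (i n) ≤ q n) → r ≤ p

/-- LIMC: the limit algebra. -/
def LimcStatement : Prop := ∀ (L : Type u) [LinearOrder L] [Nonempty L] (A : L → Type u)
  [∀ i, CompleteBooleanAlgebra (A i)] (f : ∀ i j, A i → A j), IsCh A f → (∀ j, TPat A f j) →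
    (∀ (i : L) (a : A i) (p : Thr A f), pr p ≤ thE i a ↔ p.t i ≤ a) ∧
    IsTop A f (fun i a => (thE i a : H1.RO (Thr A f))) ∧
    TP A f (fun i a => (thE i a : H1.RO (Thr A f))) ∧
    DP A (fun i a => (thE i a : H1.RO (Thr A f)))

/-! ### Fusion -/

/-- A family of sets `G i ⊆ A i` closed under the operations used in the fusion. -/
structure FC {L : Type u} [LinearOrder L] (A : L → Type u) [∀ i, CompleteBooleanAlgebra (A i)]
    (f : ∀ i j, A i → A j) (N : Set El.{u}) (G : ∀ i, Set (A i)) : Prop where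
  sup : ∀ i (x : ℕ → A i), (∀ n, x n ∈ G i) → ⨆ n, x n ∈ G i
  compl : ∀ i, ∀ x ∈ G i, xᶜ ∈ G i
  gen : ∀ i (x : A i), In N i → In N x → gen (A i) N ⊓ x ∈ G i
  map : ∀ i j, i ≤ j → ∀ x ∈ G i, f i j x ∈ G j

/-- FUS: the fusion lemma. -/
def FusStatement : Prop := ∀ (L : Type u) [LinearOrder L] (A : L → Type u)
  [∀ i, CompleteBooleanAlgebra (A i)] (f : ∀ i j, A i → A j) (C : Type u)
  [CompleteBooleanAlgebra C] (e : ∀ i, A i → C), IsCh A f → IsTop A f e → TP A f e → DP A e →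
  (∀ i j, i ≤ j → PE (f i j)) →
  ∀ᶠ N in club, ∀ G : ∀ i, Set (A i), FC A f N G → ∀ i, In N i → ∀ c : C, In N c →
    ∀ a ∈ G i, a ≤ gen (A i) N ⊓ prj (e i) c →
      ∃ (j : ℕ → L) (q : ∀ n, A (j n)), Monotone j ∧ (∀ n, q n ∈ G (j n)) ∧ IsTh f j q ∧
        prj (e i) (⨅ n, e (j n) (q n)) = a ∧ ⨅ n, e (j n) (q n) ≤ gen C N ⊓ c

/-- PEL: the limit is a proper extension. -/
def PelStatement : Prop := ∀ (L : Type u) [LinearOrder L] (A : L → Type u)
  [∀ i, CompleteBooleanAlgebra (A i)] (f : ∀ i j, A i → A j) (C : Type u)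
  [CompleteBooleanAlgebra C] (e : ∀ i, A i → C), IsCh A f → IsTop A f e → TP A f e → DP A e →
  (∀ i j, i ≤ j → PE (f i j)) → ∀ i, PE (e i)

/-! ### Relative density over `RO S` -/

/-- `s` is strongly `N`-generic. -/
def SG {S : Type u} [Preorder S] (N : Set El.{u}) (s : S) : Prop :=
  ∀ D : Set S, In N D → (∀ p, ∃ q ≤ p, q ∈ D) → ∃ d ∈ D, In N d ∧ s ≤ d

/-- Strongly generic conditions exist (`S` is `σ`-closed). -/
def SGC (S : Type u) [Preorder S] : Prop :=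
  ∀ᶠ N in club, ∀ s : S, In N s → ∃ s' ≤ s, SG N s'

/-- `RO(S) * M` is dense in `A`. -/
def DM {S : Type u} [Preorder S] {A : Type u} [CompleteBooleanAlgebra A] (ι : H1.RO S → A)
    (M : Set A) : Prop :=
  ∀ a : A, a ≠ ⊥ → ∃ s : S, ∃ m ∈ M, ι (pr s) ⊓ m ≠ ⊥ ∧ ι (pr s) ⊓ m ≤ a

/-- `M` is a `σ`-complete subalgebra. -/
structure SigC {A : Type u} [CompleteBooleanAlgebra A] (M : Set A) : Prop where
  top : ⊤ ∈ M
  compl : ∀ x ∈ M, xᶜ ∈ M
  sup : ∀ x : ℕ → A, (∀ n, x n ∈ M) → ⨆ n, x n ∈ M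

/-- DMR: refinement of `DM`, and `gen` of `RO S`. -/
def DmrStatement : Prop := ∀ (S : Type u) [Preorder S],
  (∀ (A : Type u) [CompleteBooleanAlgebra A] (ι : H1.RO S → A) (M : Set A), IsCE ι → DM ι M →
    ∀ a : A, a ≠ ⊥ → ∃ s : S, ∃ m ∈ M, ι (pr s) ⊓ m ≠ ⊥ ∧ ι (pr s) ⊓ m ≤ a ∧ pr s ≤ prj ι m) ∧
  (∀ᶠ N in club, ∀ s : S, SG N s → pr s ≤ gen (H1.RO S) N) ∧
  (∀ᶠ N in club, ∀ s t : S, SG N s → In N t → s ≤ t ∨ ∀ r ≤ s, ¬ r ≤ t)

/-- RDL: below a strongly generic condition the elements of `N` agree with elements of `M`. -/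
def RdlStatement : Prop := ∀ (S : Type u) [Preorder S] (A : Type u) [CompleteBooleanAlgebra A]
  (ι : H1.RO S → A) (M : Set A), IsCE ι → DM ι M → SigC M →
  ∀ᶠ N in club, ∀ s : S, SG N s → ∀ z : A, In N z →
    ∃ x ∈ M, ι (pr s) ⊓ (gen A N ⊓ z) = ι (pr s) ⊓ x

/-- RDM: relative density at limits. -/
def RdmStatement : Prop := ∀ (S : Type u) [Preorder S], SGC S → ∀ (L : Type u) [LinearOrder L]
  [Nonempty L] (A : L → Type u) [∀ i, CompleteBooleanAlgebra (A i)] (f : ∀ i j, A i → A j)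
  (C : Type u) [CompleteBooleanAlgebra C] (e : ∀ i, A i → C) (ι : ∀ i, H1.RO S → A i)
  (M : ∀ i, Set (A i)), IsCh A f → IsTop A f e → TP A f e → DP A e →
  (∀ i j, i ≤ j → PE (f i j)) → (∀ i, IsCE (ι i)) → (∀ i, PE (ι i)) →
  (∀ i j, i ≤ j → ∀ x, f i j (ι i x) = ι j x) → (∀ i, SigC (M i)) → (∀ i, DM (ι i) (M i)) →
  (∀ i j, i ≤ j → ∀ m ∈ M i, f i j m ∈ M j) →
  ∀ M' : Set C, SigC M' → (∀ i, ∀ m ∈ M i, e i m ∈ M') → ∀ i, DM (fun x => e i (ι i x)) M'

/-! ## Cardinals -/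

/-- `I` is a well-order of type the inaccessible cardinal `κ`. -/
structure Idx (κ : Cardinal.{u}) (I : Type u) [LinearOrder I] : Prop where
  card : #I = κ
  reg : κ.IsRegular
  unc : ℵ₀ < κ
  lim : ∀ c < κ, 2 ^ c < κ
  seg : ∀ i : I, #(Set.Iio i) < κ

/-- IDX. -/
def IdxStatement : Prop :=
  (∀ κ : Cardinal.{u}, κ.IsInaccessible → Idx κ κ.ord.ToType) ∧
  (∀ (κ : Cardinal.{u}) (I : Type u) [LinearOrder I] [WellFoundedLT I], Idx κ I →
    (∀ Z : Set I, #Z < κ → ∃ i, ∀ z ∈ Z, z < i) ∧ (∀ c < κ, c ^ ℵ₀ < κ) ∧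
    (∀ c < κ, c ^ #W.{u} < κ) ∧ #W.{u} < κ ∧
    (∀ X : Type u, #X ≤ κ → #{Z : Set X // #Z < κ} ≤ κ) ∧
    (∀ X : Type u, #X ≤ κ → #(W.{u} → W.{u} → X) ≤ κ) ∧
    (∃ bk : I → I × I, ∀ p i, ∃ j, i < j ∧ bk j = p)) ∧
  (∀ δ : W.{u}, (Set.Iio δ).Countable) ∧ (∀ Z : Set W.{u}, Z.Countable → ∃ δ, ∀ z ∈ Z, z < δ) ∧
  (∀ (κ : Cardinal.{u}) (A : Type u) [CompleteBooleanAlgebra A] (X : Set A),
    (∀ c < κ, c ^ ℵ₀ < κ) → ℵ₀ < κ → #X < κ → ∃ M : Set A, SigC M ∧ X ⊆ M ∧ #M < κ)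

/-- `i` has uncountable cofinality. -/
def UC {I : Type u} [LinearOrder I] (i : I) : Prop :=
  ∀ s : Set I, s.Countable → (∀ j ∈ s, j < i) → ∃ k < i, ∀ j ∈ s, j < k

/-- CLO: closure points of uncountable cofinality. -/
def CloStatement : Prop := ∀ (κ : Cardinal.{u}) (I : Type u) [LinearOrder I] [WellFoundedLT I],
  Idx κ I → ∀ (h : I → I) (i : I), ∃ δ, i < δ ∧ UC δ ∧ ∀ j < δ, h j < δ

/-- The chain condition of `S`. -/
def KC (I : Type u) (S : Type u) [Preorder S] : Prop :=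
  ∀ s : I → S, ∃ i j, i ≠ j ∧ ∃ t, t ≤ s i ∧ t ≤ s j

/-- The chain condition of an algebra. -/
def KCA (I : Type u) (A : Type u) [CompleteBooleanAlgebra A] : Prop :=
  ∀ a : I → A, (∀ i, a i ≠ ⊥) → ∃ i j, i ≠ j ∧ a i ⊓ a j ≠ ⊥

/-- SIZE: chain condition and size of an algebra with a small relatively dense set. -/
def SizeStatement : Prop := ∀ (κ : Cardinal.{u}) (I : Type u) [LinearOrder I] [WellFoundedLT I],
  Idx κ I → ∀ (S : Type u) [Preorder S], KC I S → #S ≤ κ →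
  ∀ (A : Type u) [CompleteBooleanAlgebra A] (ι : H1.RO S → A) (M : Set A), IsCE ι → DM ι M →
    #M < κ → KCA I A ∧ #A ≤ κ

/-! ## Good chains -/

section

variable {S : Type u} [Preorder S] {L : Type u} [LinearOrder L] (κ : Cardinal.{u})
  (A : L → Type u) [∀ i, CompleteBooleanAlgebra (A i)] (f : ∀ i j, A i → A j)
  (ι : ∀ i, H1.RO S → A i) (M : ∀ i, Set (A i))

/-- The properties of the chain of the iteration. -/
structure GoodCh : Prop where
  ch : IsCh A f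
  ιce : ∀ i, IsCE (ι i)
  ιcomp : ∀ i j, i ≤ j → ∀ x, f i j (ι i x) = ι j x
  pe : ∀ i j, i ≤ j → PE (f i j)
  ιpe : ∀ i, PE (ι i)
  tp : ∀ j, TPat A f j
  dp : ∀ j, Order.IsSuccLimit j → DPat A f j
  sig : ∀ i, SigC (M i)
  Mmap : ∀ i j, i ≤ j → ∀ m ∈ M i, f i j m ∈ M j
  Mcard : ∀ i, #(M i) < κ
  Mdm : ∀ i, DM (ι i) (M i)
  card : ∀ i, #(A i) ≤ κ

variable {C : Type u} [CompleteBooleanAlgebra C] (e : ∀ i, A i → C) (ιC : H1.RO S → C)
  (MC : Set C)

/-- The properties of the next algebra. -/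
structure GoodTop : Prop where
  top : IsTop A f e
  ιce : IsCE ιC
  ιcomp : ∀ i x, e i (ι i x) = ιC x
  pe : ∀ i, PE (e i)
  ιpe : PE ιC
  tp : TP A f e
  dp : Nonempty L → NoMaxOrder L → DP A e
  sig : SigC MC
  Mmap : ∀ i, ∀ m ∈ M i, e i m ∈ MC
  Mcard : #MC < κ
  Mdm : DM ιC MC
  card : #C ≤ κ

end

/-- KCC: the chain condition of the top of a chain of length `κ`, and every element is old. -/
def KccStatement : Prop := ∀ (κ : Cardinal.{u}) (I : Type u) [LinearOrder I] [WellFoundedLT I],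
  Idx κ I → ∀ (S : Type u) [Preorder S], KC I S → ∀ (A : I → Type u)
  [∀ i, CompleteBooleanAlgebra (A i)] (f : ∀ i j, A i → A j) (ι : ∀ i, H1.RO S → A i)
  (M : ∀ i, Set (A i)), GoodCh κ A f ι M → ∀ (C : Type u) [CompleteBooleanAlgebra C]
  (e : ∀ i, A i → C), IsTop A f e → DP A e →
    KCA I C ∧ ∀ c : C, ∃ i, ∃ a : A i, c = e i a

/-- TOPL: the next algebra at limits. -/
def ToplStatement : Prop := ∀ (κ : Cardinal.{u}) (I : Type u) [LinearOrder I] [WellFoundedLT I],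
  Idx κ I → ∀ (S : Type u) [Preorder S], SGC S → KC I S → #S ≤ κ →
  ∀ (L : Type u) [LinearOrder L] [Nonempty L] [NoMaxOrder L], #L < κ → ∀ (A : L → Type u)
  [∀ i, CompleteBooleanAlgebra (A i)] (f : ∀ i j, A i → A j) (ι : ∀ i, H1.RO S → A i)
  (M : ∀ i, Set (A i)), GoodCh κ A f ι M →
    ∃ (C : Type u) (_ : CompleteBooleanAlgebra C) (e : ∀ i, A i → C) (ιC : H1.RO S → C)
      (MC : Set C), GoodTop κ A f ι M e ιC MC

/-- TOP0: the first algebra `RO S`. -/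
def Top0Statement : Prop := ∀ (κ : Cardinal.{u}) (I : Type u) [LinearOrder I] [WellFoundedLT I],
  Idx κ I → ∀ (S : Type u) [Preorder S], KC I S → #S ≤ κ →
  ∀ (L : Type u) [LinearOrder L] [IsEmpty L] (A : L → Type u)
  [∀ i, CompleteBooleanAlgebra (A i)] (f : ∀ i j, A i → A j) (ι : ∀ i, H1.RO S → A i)
  (M : ∀ i, Set (A i)),
    GoodTop κ A f ι M (C := H1.RO S) (fun i => isEmptyElim i) (fun x => x) {⊤, ⊥}

/-- TOPT: the trivial extension at successors. -/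
def ToptStatement : Prop := ∀ (κ : Cardinal.{u}) (S : Type u) [Preorder S] (L : Type u)
  [LinearOrder L] (A : L → Type u)
  [∀ i, CompleteBooleanAlgebra (A i)] (f : ∀ i j, A i → A j) (ι : ∀ i, H1.RO S → A i)
  (M : ∀ i, Set (A i)), GoodCh κ A f ι M → ∀ m : L, (∀ i, i ≤ m) →
    GoodTop κ A f ι M (C := A m) (fun i => f i m) (ι m) (M m)

/-! ## The two-step iteration -/

/-- An `A`-valued preorder on `X`. -/
structure BPre (A : Type u) [CompleteBooleanAlgebra A] (X : Type u) where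
  le : X → X → A
  refl : ∀ x, le x x = ⊤
  trans : ∀ x y z, le x y ⊓ le y z ≤ le x z

section

variable {A : Type u} [CompleteBooleanAlgebra A] {X : Type u}

/-- Conditions of the two-step iteration. -/
structure Tw (Q : BPre A X) where
  b : A
  x : X
  ne : b ≠ ⊥

instance (Q : BPre A X) : Preorder (Tw Q) where
  le p q := p.b ≤ q.b ∧ p.b ≤ Q.le p.x q.x
  le_refl p := ⟨le_rfl, by rw [Q.refl]; exact le_top⟩
  le_trans p q r h h' :=
    ⟨h.1.trans h'.1, le_trans (le_inf h.2 (h.1.trans h'.2)) (Q.trans _ _ _)⟩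

/-- The algebra `A * Q`. -/
abbrev TwS (Q : BPre A X) : Type u := H1.RO (Tw Q)

/-- The embedding of `A` into `A * Q`. -/
noncomputable def twE (Q : BPre A X) (a : A) : TwS Q := ⨆ p : {p : Tw Q // p.b ≤ a}, pr p.1

/-- The canonical generic filter. -/
noncomputable def twG (Q : BPre A X) (x : X) : TwS Q := ⨆ p : {p : Tw Q // p.b ≤ Q.le p.x x}, pr p.1

/-- `G` is (a name of) a filter of `Q` which meets all dense subsets of `Q` with names over `A`. -/
structure GenF {C : Type u} [CompleteBooleanAlgebra C] (f : A → C) (Q : BPre A X) (G : X → C) :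
    Prop where
  ne : ⨆ x, G x = ⊤
  up : ∀ x y, f (Q.le x y) ⊓ G x ≤ G y
  dir : ∀ x y, G x ⊓ G y ≤ ⨆ z, G z ⊓ f (Q.le z x) ⊓ f (Q.le z y)
  gn : ∀ D : X → A, (∀ x, ⨆ y, D y ⊓ Q.le y x = ⊤) → ⨆ y, f (D y) ⊓ G y = ⊤

/-- The image of a preorder under an embedding. -/
def BPre.map {C : Type u} [CompleteBooleanAlgebra C] (Q : BPre A X) (f : A → C)
    (h1 : f ⊤ = ⊤) (h2 : ∀ a b c, a ⊓ b ≤ c → f a ⊓ f b ≤ f c) : BPre C X where
  le x y := f (Q.le x y)
  refl x := by rw [Q.refl, h1]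
  trans x y z := h2 _ _ _ (Q.trans x y z)

end

/-- TW1: the embedding. -/
def Tw1Statement : Prop := ∀ (A : Type u) [CompleteBooleanAlgebra A] (X : Type u) [Nonempty X]
  (Q : BPre A X), IsCE (twE Q) ∧ (∀ (p : Tw Q) (a : A), pr p ≤ twE Q a ↔ p.b ≤ a) ∧
    (∀ p : Tw Q, pr p = twE Q p.b ⊓ twG Q p.x) ∧ (∀ p : Tw Q, prj (twE Q) (pr p) = p.b) ∧
    (∀ x, prj (twE Q) (twG Q x) = ⊤) ∧ GenF (twE Q) Q (twG Q)

/-- FAC: properness of `Q` over `C` gives properness over the proper subalgebra `A`. -/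
def FacStatement : Prop := ∀ (A C : Type u) [CompleteBooleanAlgebra A] [CompleteBooleanAlgebra C]
  (f : A → C), IsCE f → PE f → ∀ (X : Type u) [Nonempty X] (Q : BPre A X)
  (h1 : f ⊤ = ⊤) (h2 : ∀ a b c, a ⊓ b ≤ c → f a ⊓ f b ≤ f c), PE (twE (Q.map f h1 h2)) → PE (twE Q)

/-- TOPS: the next algebra at successors. -/
def TopsStatement : Prop := ∀ (κ : Cardinal.{u}) (I : Type u) [LinearOrder I] [WellFoundedLT I],
  Idx κ I → ∀ (S : Type u) [Preorder S], KC I S → #S ≤ κ →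
  ∀ (L : Type u) [LinearOrder L] (A : L → Type u)
  [∀ i, CompleteBooleanAlgebra (A i)] (f : ∀ i j, A i → A j) (ι : ∀ i, H1.RO S → A i)
  (M : ∀ i, Set (A i)), GoodCh κ A f ι M → ∀ m : L, (∀ i, i ≤ m) →
  ∀ Q : BPre (A m) W.{u}, PE (twE Q) →
    ∃ MC : Set (TwS Q), GoodTop κ A f ι M (C := TwS Q) (fun i a => twE Q (f i m a))
      (fun x => twE Q (ι m x)) MC

/-! ## The recursion -/

/-- REC: dependent choice along a well-order. -/
def RecStatement : Prop := ∀ (I : Type u) [LinearOrder I] [WellFoundedLT I] (St : Type v)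
  [Inhabited St] (Ok : I → (I → St) → Prop),
  (∀ β X X', (∀ γ ≤ β, X γ = X' γ) → Ok β X → Ok β X') →
  (∀ β X, (∀ γ < β, Ok γ X) → ∃ Y, Ok β (Function.update X β Y)) → ∃ X, ∀ β, Ok β X

/-- The states of the recursion: an algebra, the embedding of `RO S`, (untyped) maps from the
previous algebras, a small set. -/
structure St (I S : Type u) [Preorder S] where
  A : Type u
  [inst : CompleteBooleanAlgebra A]
  ι : H1.RO S → A
  mp : I → El.{u} → A
  M : Set A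

attribute [instance] St.inst

section

variable {I S : Type u} [LinearOrder I] [Preorder S]

/-- The map from the `i`-th to the `j`-th algebra. -/
def fm {L : Type u} (φ : L → I) (X : L → St I S) (i j : L) (a : (X i).A) : (X j).A :=
  (X j).mp (φ i) ⟨(X i).A, a⟩

open Classical in
/-- A surjection of `I` onto `W → W → A` if there is one. -/
noncomputable def enu (I A : Type u) [CompleteBooleanAlgebra A] (ν : I) : W.{u} → W.{u} → A :=
  if h : ∃ g : I → (W.{u} → W.{u} → A), Function.Surjective g then h.choose ν else fun _ _ => ⊥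

/-- The properties of stage `β` of the recursion; `Z` is the sequence of the previous states and
`Y` the new state. -/
structure OkS (κ : Cardinal.{u}) (bk : I → I × I) (β : I) (Z : Set.Iio β → St I S)
    (Y : St I S) : Prop where
  good : GoodTop κ (fun i => (Z i).A) (fm Subtype.val Z) (fun i => (Z i).ι) (fun i => (Z i).M)
    (fun i a => Y.mp i.1 ⟨(Z i).A, a⟩) Y.ι Y.M
  id : ∀ a : Y.A, Y.mp β ⟨Y.A, a⟩ = a
  succ : ∀ i : Set.Iio β, i.1 ⋖ β → ∀ Q : BPre (Z i).A W.{u},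
    (∃ j : Set.Iio β, j ≤ i ∧ (bk i.1).1 = j.1 ∧
      ∀ x y, Q.le x y = fm Subtype.val Z j i (enu I (Z j).A (bk i.1).2 x y)) →
    PE (twE Q) → ∃ G : W.{u} → Y.A, GenF (fun a : (Z i).A => Y.mp i.1 ⟨(Z i).A, a⟩) Q G

/-- The properties of stage `β` of the recursion. -/
def Ok (κ : Cardinal.{u}) (bk : I → I × I) (β : I) (X : I → St I S) : Prop :=
  OkS κ bk β (fun i => X i.1) (X β)

end

/-- OKG: stages which are ok form a good chain. -/
def OkgStatement : Prop := ∀ (κ : Cardinal.{u}) (I : Type u) [LinearOrder I] [WellFoundedLT I]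
  (bk : I → I × I) (S : Type u) [Preorder S] (X : I → St I S) (L : Type u) [LinearOrder L]
  (φ : L → I), StrictMono φ → (∀ l, ∀ i ≤ φ l, ∃ l', φ l' = i) → (∀ l, Ok κ bk (φ l) X) →
    GoodCh κ (fun l => (X (φ l)).A) (fm φ fun l => X (φ l)) (fun l => (X (φ l)).ι)
      fun l => (X (φ l)).M

/-- STEP: the step of the recursion. -/
def StepStatement : Prop := ∀ (κ : Cardinal.{u}) (I : Type u) [LinearOrder I] [WellFoundedLT I],
  Idx κ I → ∀ (bk : I → I × I) (S : Type u) [Preorder S], SGC S → KC I S → #S ≤ κ →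
  ∀ (β : I) (X : I → St I S), (∀ γ < β, Ok κ bk γ X) → ∃ Y, Ok κ bk β (Function.update X β Y)

/-! ## The result of the iteration -/

/-- Typed `PFA(ω₁)`: every `B`-valued preorder on `ω₁` which is proper has filters meeting `ω₁` many
dense sets. -/
def TPF (B : Type u) [CompleteBooleanAlgebra B] : Prop :=
  ∀ Q : BPre B W.{u}, PE (twE Q) → ∀ D : W.{u} → W.{u} → B, (∀ ξ x, ⨆ y, D ξ y ⊓ Q.le y x = ⊤) →
    ∃ G : W.{u} → B, ⨆ x, G x = ⊤ ∧ (∀ x y, Q.le x y ⊓ G x ≤ G y) ∧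
      (∀ x y, G x ⊓ G y ≤ ⨆ z, G z ⊓ Q.le z x ⊓ Q.le z y) ∧ ∀ ξ, ⨆ y, D ξ y ⊓ G y = ⊤

/-- `Z` is a complete subalgebra. -/
structure IsSub {B : Type u} [CompleteBooleanAlgebra B] (Z : Set B) : Prop where
  compl : ∀ x ∈ Z, xᶜ ∈ Z
  sSup : ∀ s ⊆ Z, sSup s ∈ Z

/-- The data produced by the iteration. -/
structure IModel (κ : Cardinal.{u}) (I : Type u) [LinearOrder I] (S : Type u) [Preorder S]
    (B : Type u) [CompleteBooleanAlgebra B] (ι : H1.RO S → B) : Prop where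
  ce : IsCE ι
  pe : PE ι
  pfa : TPF B
  alg : ∃ (Z : I → Set B) (M : I → Set B), Monotone Z ∧ (∀ b, ∃ i, b ∈ Z i) ∧
    ∀ i, IsSub (Z i) ∧ (∀ x, ι x ∈ Z i) ∧ M i ⊆ Z i ∧ #(M i) < κ ∧
      ∀ a ∈ Z i, a ≠ ⊥ → ∃ s : S, ∃ m ∈ M i, ι (pr s) ⊓ m ≠ ⊥ ∧ ι (pr s) ⊓ m ≤ a ∧ pr s ≤ prj ι m

/-- ITER: the iteration theorem. -/
def IterStatement : Prop := ∀ (κ : Cardinal.{u}) (I : Type u) [LinearOrder I] [WellFoundedLT I],
  Idx κ I → ∀ (S : Type u) [Preorder S] [Nonempty S], SGC S → KC I S → #S ≤ κ →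
    ∃ (B : Type u) (_ : CompleteBooleanAlgebra B) (ι : H1.RO S → B), IModel κ I S B ι

end Pool.Agent.Lib.MP_e6fef2_lc
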