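import Pool.Agent.Lib.MP_c5d73d_lc.F.Defs
import Pool.Agent.Lib.MP_c5d73d_lc.F.Iter

/-!
# Club many countable sets; complete embeddings; genericity; proper extensions

`El` is the class of all elements of all types of a universe.  A countable set `N` of elements plays
the role of a countable elementary submodel; (for club many `N`) is the filter `club`.
-/

universe u v

open Cardinal Filter

namespace Pool.Agent.Lib.MP_e6fef2_lc

open Pool.Agent.Lib.MP_100a6c_lc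
open Pool.Agent.Lib.MP_c5d73d_lc.F (pr)

/-- All elements of all types in `Type u`. -/
abbrev El : Type (u + 1) := Σ T : Type u, T

/-- `t ∈ N`. -/
def In (N : Set El.{u}) {T : Type u} (t : T) : Prop := (⟨T, t⟩ : El.{u}) ∈ N

/-- `N` is closed under the functions `F n`. -/
def ClosedU (F : ℕ → List El.{u} → El.{u}) (N : Set El.{u}) : Prop :=
  ∀ n l, (∀ x ∈ l, x ∈ N) → F n l ∈ N

/-- The filter generated by the sets of all countable `N` closed under countably many functions. -/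
def club : Filter (Set El.{u}) where
  sets := {X | ∃ F : ℕ → List El.{u} → El.{u}, ∀ N : Set El.{u}, N.Countable → ClosedU F N → N ∈ X}
  univ_sets := ⟨fun _ _ => ⟨PUnit, PUnit.unit⟩, fun _ _ _ => trivial⟩
  sets_of_superset := by
    rintro X Y ⟨F, hF⟩ hXY
    exact ⟨F, fun N hN hc => hXY (hF N hN hc)⟩
  inter_sets := by
    rintro X Y ⟨F, hF⟩ ⟨G, hG⟩
    refine ⟨fun n => if n % 2 = 0 then F (n / 2) else G (n / 2), fun N hN hc => ⟨?_, ?_⟩⟩
    · refine hF N hN fun n l hl => ?_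
      have := hc (2 * n) l hl
      simpa using this
    · refine hG N hN fun n l hl => ?_
      have := hc (2 * n + 1) l hl
      have h1 : (2 * n + 1) % 2 = 1 := by omega
      have h2 : (2 * n + 1) / 2 = n := by omega
      simpa [h1, h2] using this

/-- `ω₁` as a type. -/
abbrev W : Type u := (Cardinal.aleph.{u} 1).ord.ToType

/-- CLUB: basic properties of the filter `club`. -/
def ClubStatement : Prop :=
  -- nonempty, countable sets
  (∀ p : Set El.{u} → Prop, (∀ᶠ N in club, p N) → ∀ Z : Set El.{u}, Z.Countable →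
    ∃ N, N.Countable ∧ Z ⊆ N ∧ p N) ∧
  (∀ᶠ N in club.{u}, N.Countable) ∧
  -- countably complete
  (∀ p : ℕ → Set El.{u} → Prop, (∀ n, ∀ᶠ N in club, p n N) → ∀ᶠ N in club, ∀ n, p n N) ∧
  -- constants, normality
  (∀ (T : Type u) (t : T), ∀ᶠ N in club, In N t) ∧
  (∀ (T : Type u) (p : T → Set El.{u} → Prop), (∀ t, ∀ᶠ N in club, p t N) →
    ∀ᶠ N in club, ∀ t : T, In N t → p t N) ∧
  -- functions, countable sets
  (∀ (T T' : Type u) (f : T → T'), ∀ᶠ N in club, ∀ t : T, In N t → In N (f t)) ∧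
  (∀ (T T' T'' : Type u) (f : T → T' → T''), ∀ᶠ N in club, ∀ (t : T) (t' : T'), In N t → In N t' →
    In N (f t t')) ∧
  (∀ T : Type u, ∀ᶠ N in club, ∀ s : Set T, In N s → s.Countable → ∀ t ∈ s, In N t) ∧
  -- lists and tuples
  (∀ T : Type u, ∀ᶠ N in club, ∀ l : List T, In N l ↔ ∀ t ∈ l, In N t) ∧
  -- ω₁
  (∀ᶠ N in club, ∃ δ : W.{u}, ∀ ξ : W.{u}, In N ξ ↔ ξ < δ) ∧
  -- normality for classes of types
  (∀ p : (T : Type u) → T → Set El.{u} → Prop, (∀ T t, ∀ᶠ N in club, p T t N) →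
    ∀ᶠ N in club, ∀ (T : Type u) (t : T), In N t → p T t N)

section

variable {A C : Type u} [CompleteBooleanAlgebra A] [CompleteBooleanAlgebra C]

/-- `f` is a complete embedding of complete Boolean algebras. -/
structure IsCE (f : A → C) : Prop where
  inj : Function.Injective f
  compl : ∀ a, f aᶜ = (f a)ᶜ
  sSup : ∀ s : Set A, f (sSup s) = ⨆ a ∈ s, f a

/-- The projection to a complete subalgebra. -/
def prj (f : A → C) (c : C) : A := sInf {a | c ≤ f a}

variable (A) in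
/-- The Boolean value of: the generic ultrafilter is generic over `N`. -/
def gen (N : Set El.{u}) : A :=
  ⨅ (D : Set A) (_ : In N D) (_ : sSup D = ⊤), ⨆ (d : A) (_ : d ∈ D) (_ : In N d), d

/-- `f : A → C` is a proper extension. -/
def PE (f : A → C) : Prop :=
  ∀ᶠ N in club, ∀ c : C, In N c → gen A N ⊓ prj f c ≤ prj f (gen C N ⊓ c)

end

/-- ALG: complete embeddings and projections. -/
def AlgStatement : Prop := ∀ (A C : Type u) [CompleteBooleanAlgebra A] [CompleteBooleanAlgebra C]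
  (f : A → C), IsCE f →
  f ⊤ = ⊤ ∧ f ⊥ = ⊥ ∧ (∀ a b, f (a ⊓ b) = f a ⊓ f b) ∧ (∀ a b, f (a ⊔ b) = f a ⊔ f b) ∧
  (∀ a b, f a ≤ f b ↔ a ≤ b) ∧
  (∀ (ι : Type u) (a : ι → A), f (⨆ i, a i) = ⨆ i, f (a i)) ∧
  (∀ (ι : Type u) (a : ι → A), f (⨅ i, a i) = ⨅ i, f (a i)) ∧
  (∀ a : ℕ → A, f (⨆ i, a i) = ⨆ i, f (a i)) ∧ (∀ a : ℕ → A, f (⨅ i, a i) = ⨅ i, f (a i)) ∧
  (∀ c, c ≤ f (prj f c)) ∧ (∀ c a, prj f c ≤ a ↔ c ≤ f a) ∧ (∀ a, prj f (f a) = a) ∧
  (∀ c d, c ≤ d → prj f c ≤ prj f d) ∧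
  (∀ (ι : Type u) (c : ι → C), prj f (⨆ i, c i) = ⨆ i, prj f (c i)) ∧
  (∀ c : ℕ → C, prj f (⨆ i, c i) = ⨆ i, prj f (c i)) ∧
  (∀ s : Set C, prj f (sSup s) = ⨆ c ∈ s, prj f c) ∧
  (∀ c a, prj f (c ⊓ f a) = prj f c ⊓ a) ∧ (∀ c, prj f c = ⊥ ↔ c = ⊥) ∧
  (∀ c a, f a ⊓ c = ⊥ ↔ a ⊓ prj f c = ⊥)

/-- ALG2: composition. -/
def Alg2Statement : Prop := ∀ (A B C : Type u) [CompleteBooleanAlgebra A]
  [CompleteBooleanAlgebra B] [CompleteBooleanAlgebra C] (f : A → B) (g : B → C), IsCE f → IsCE g →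
  IsCE (fun a => g (f a)) ∧ (∀ c, prj (fun a => g (f a)) c = prj f (prj g c)) ∧
  IsCE (fun a : A => a)

/-- GEN: `gen A N` forces that the value of a name in `N` is in `N`. -/
def GenStatement : Prop := ∀ (A : Type u) [CompleteBooleanAlgebra A],
  (∀ T : Type u, ∀ᶠ N in club, ∀ φ : T → A, In N φ →
    gen A N ⊓ ⨆ t, φ t ≤ ⨆ (t : T) (_ : In N t), φ t) ∧
  (∀ (C : Type u) [CompleteBooleanAlgebra C] (f : A → C), IsCE f →
    ∀ᶠ N in club, gen C N ≤ f (gen A N))

/-- PEC: composition and factorisation of proper extensions. -/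
def PecStatement : Prop := ∀ (A B C : Type u) [CompleteBooleanAlgebra A]
  [CompleteBooleanAlgebra B] [CompleteBooleanAlgebra C] (f : A → B) (g : B → C), IsCE f → IsCE g →
  (PE f → PE g → PE (fun a => g (f a))) ∧ (PE (fun a => g (f a)) → PE f) ∧ PE (fun a : A => a)

end Pool.Agent.Lib.MP_e6fef2_lc
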