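import Pool.Agent.Lib.MP_e6fef2_lc.Chain
import Pool.Agent.Lib.MP_e6fef2_lc.V.TDefs

/-!
# Statements connecting the iteration with the typed notions of part V
-/

universe u

open Cardinal Filter

namespace Pool.Agent.Lib.MP_e6fef2_lc

open Pool.Agent.Lib.MP_100a6c_lc
open Pool.Agent.Lib.MP_c5d73d_lc.F (pr)

/-- XNZ: below every nonzero element of `N` the generic ultrafilter can be `N`-generic, with a
strongly generic `S`-part. -/
def XnzStatement : Prop := ∀ (S : Type u) [Preorder S], SGC S → ∀ (B : Type u)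
  [CompleteBooleanAlgebra B] (ι : H1.RO S → B), IsCE ι → PE ι →
  ∀ᶠ N in club, ∀ b : B, In N b → ∀ s : S, In N s → ι (pr s) ⊓ b ≠ ⊥ →
    ∃ t ≤ s, In N t ∧ ∀ s' ≤ t, SG N s' → ι (pr s') ⊓ (gen B N ⊓ b) ≠ ⊥

/-- BR1: typed properness implies that the two-step algebra is a proper extension. -/
def Br1Statement : Prop := ∀ (B : Type u) [CompleteBooleanAlgebra B] (Q : BPre B W.{u}),
  TProper Q.le → PE (twE Q)

/-- BR2: countable covering. -/
def Br2Statement : Prop := ∀ (S : Type u) [Preorder S] [Nonempty S], SGC S → ∀ (B : Type u)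
  [CompleteBooleanAlgebra B] (ι : H1.RO S → B), IsCE ι → PE ι → CCV B

/-- BR3: typed `PFA(ω₁)`. -/
def Br3Statement : Prop := ∀ (B : Type u) [CompleteBooleanAlgebra B], TPF B → TPFA B

end Pool.Agent.Lib.MP_e6fef2_lc
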