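import Pool.Agent.Lib.MP_e6fef2_lc.Base

/-!
# The generic Kurepa tree

A node of length `e < ω₁` is a function `e → 2`, written as a function `W → Bool` with value `false`
from `e` on.  A condition of the forcing `TC` consists of a countable ordinal `ht`, of a tree with
countable levels `T e`, `e ≤ ht`, closed under restrictions and under both immediate successors, all
of whose nodes are extended to the top level, and of nodes `f x ∈ T ht` for the elements `x` of a
countable set `a` of indices.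
-/

universe u

namespace Pool.Agent.Lib.MP_e6fef2_lc

open Set

/-- `u` below `e`, and `false` from `e` on. -/
noncomputable def cutb (e : W.{u}) (u : W.{u} → Bool) : W.{u} → Bool := by
  classical exact fun m => if m < e then u m else false

/-- The node `u` of length `e` followed by the value `i`. -/
noncomputable def snoc (e : W.{u}) (u : W.{u} → Bool) (i : Bool) : W.{u} → Bool := by
  classical exact fun m => if m = e then i else u m

theorem cutb_of_lt {e m : W.{u}} {u : W.{u} → Bool} (h : m < e) : cutb e u m = u m := by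
  simp [cutb, h]

theorem cutb_of_le {e m : W.{u}} {u : W.{u} → Bool} (h : e ≤ m) : cutb e u m = false := by
  simp [cutb, not_lt.2 h]

theorem cutb_cutb {e e' : W.{u}} (h : e' ≤ e) (u : W.{u} → Bool) :
    cutb e' (cutb e u) = cutb e' u := by
  funext m
  rcases lt_or_ge m e' with h' | h'
  · rw [cutb_of_lt h', cutb_of_lt h', cutb_of_lt (h'.trans_le h)]
  · rw [cutb_of_le h', cutb_of_le h']

theorem cutb_congr {e : W.{u}} {u v : W.{u} → Bool} :
    cutb e u = cutb e v ↔ ∀ m < e, u m = v m := by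
  constructor
  · intro h m hm
    rw [← cutb_of_lt (u := u) hm, h, cutb_of_lt hm]
  · intro h
    funext m
    rcases lt_or_ge m e with h' | h'
    · rw [cutb_of_lt h', cutb_of_lt h', h m h']
    · rw [cutb_of_le h', cutb_of_le h']

theorem cutb_eq_self {e : W.{u}} {u : W.{u} → Bool} (h : ∀ m, e ≤ m → u m = false) :
    cutb e u = u := by
  funext m
  rcases lt_or_ge m e with h' | h'
  · rw [cutb_of_lt h']
  · rw [cutb_of_le h', h m h']

@[simp] theorem snoc_self {e : W.{u}} {u : W.{u} → Bool} {i : Bool} : snoc e u i e = i := by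
  simp [snoc]

theorem snoc_of_ne {e m : W.{u}} {u : W.{u} → Bool} {i : Bool} (h : m ≠ e) :
    snoc e u i m = u m := by
  simp [snoc, h]

/-- Conditions for the generic Kurepa tree, with index type `I` for the branches. -/
@[ext]
structure TC (I : Type u) where
  /-- the height -/
  ht : W.{u}
  /-- the levels of the tree -/
  T : W.{u} → Set (W.{u} → Bool)
  /-- the set of indices -/
  a : Set I
  /-- the branches -/
  f : I → W.{u} → Bool
  low : ∀ e ≤ ht, ∀ u ∈ T e, ∀ m, e ≤ m → u m = false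
  ctbl : ∀ e ≤ ht, (T e).Countable
  res : ∀ e ≤ ht, ∀ e' ≤ e, ∀ u ∈ T e, cutb e' u ∈ T e'
  extn : ∀ e ≤ ht, ∀ e' ≤ e, ∀ u ∈ T e', ∃ v ∈ T e, cutb e' v = u
  suc : ∀ e < ht, ∀ u ∈ T e, ∀ i, snoc e u i ∈ T (Order.succ e)
  ne : (T ht).Nonempty
  out : ∀ e, ht < e → T e = ∅
  a_ctbl : a.Countable
  f_mem : ∀ x ∈ a, f x ∈ T ht
  f_out : ∀ x, x ∉ a → f x = fun _ => false

namespace TC

variable {I : Type u}

/-- The order restricted to the indices in `b`: `s` extends the restriction of `t` to `b`. -/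
structure LeR (b : Set I) (s t : TC I) : Prop where
  ht : t.ht ≤ s.ht
  T : ∀ e ≤ t.ht, s.T e = t.T e
  a : t.a ∩ b ⊆ s.a
  f : ∀ x ∈ t.a ∩ b, ∀ m < t.ht, s.f x m = t.f x m

theorem LeR.refl (b : Set I) (s : TC I) : LeR b s s :=
  ⟨le_rfl, fun _ _ => rfl, inter_subset_left, fun _ _ _ _ => rfl⟩

theorem LeR.trans {b : Set I} {s t r : TC I} (h : LeR b s t) (h' : LeR b t r) : LeR b s r where
  ht := h'.ht.trans h.ht
  T := fun e he => (h.T e (he.trans h'.ht)).trans (h'.T e he)
  a := fun x hx => h.a ⟨h'.a hx, hx.2⟩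
  f := fun x hx m hm => (h.f x ⟨h'.a hx, hx.2⟩ m (hm.trans_le h'.ht)).trans (h'.f x hx m hm)

theorem LeR.mono {b c : Set I} {s t : TC I} (h : LeR c s t) (hb : b ⊆ c) : LeR b s t where
  ht := h.ht
  T := h.T
  a := fun x hx => h.a ⟨hx.1, hb hx.2⟩
  f := fun x hx => h.f x ⟨hx.1, hb hx.2⟩

/-- Smaller conditions are stronger. -/
instance : Preorder (TC I) where
  le s t := LeR univ s t
  le_refl := LeR.refl univ
  le_trans _ _ _ h h' := h.trans h'

theorem le_def {s t : TC I} : s ≤ t ↔ LeR univ s t := Iff.rfl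

theorem LeR.of_le {b : Set I} {s t : TC I} (h : s ≤ t) : LeR b s t :=
  LeR.mono (c := univ) h (subset_univ b)

theorem ht_le {s t : TC I} (h : s ≤ t) : t.ht ≤ s.ht := LeR.ht h
theorem T_eq {s t : TC I} (h : s ≤ t) {e : W.{u}} (he : e ≤ t.ht) : s.T e = t.T e := LeR.T h e he
theorem a_sub {s t : TC I} (h : s ≤ t) : t.a ⊆ s.a := fun x hx => LeR.a h ⟨hx, mem_univ x⟩
theorem f_eq {s t : TC I} (h : s ≤ t) {x : I} (hx : x ∈ t.a) {m : W.{u}} (hm : m < t.ht) :
    s.f x m = t.f x m := LeR.f h x ⟨hx, mem_univ x⟩ m hm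

/-- The trace of a branch on a lower level is a node. -/
theorem cut_f_mem (s : TC I) {x : I} (hx : x ∈ s.a) {e : W.{u}} (he : e ≤ s.ht) :
    cutb e (s.f x) ∈ s.T e := s.res _ le_rfl _ he _ (s.f_mem x hx)

end TC

/-! ## The poset `P` -/

/-- The ground model poset: a node `t` of length `d`, a finite set `e` of ordinals `n < d` with
`t n = true`, and a finite set `I` of intervals `[a, b]` which avoid `e`. -/
@[ext]
structure PC : Type u where
  /-- the length of the node -/
  d : W.{u}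
  /-- the node -/
  t : W.{u} → Bool
  /-- the finite set of ordinals -/
  e : Finset W.{u}
  /-- the finite set of intervals -/
  I : Finset (W.{u} × W.{u})
  low : ∀ m, d ≤ m → t m = false
  e_lt : ∀ n ∈ e, n < d
  e_t : ∀ n ∈ e, t n = true
  avoid : ∀ J ∈ I, ∀ n ∈ e, ¬ (J.1 ≤ n ∧ n ≤ J.2)

namespace PC

instance : PartialOrder PC.{u} where
  le p q := q.d ≤ p.d ∧ (∀ m < q.d, p.t m = q.t m) ∧ q.e ⊆ p.e ∧ q.I ⊆ p.I
  le_refl p := ⟨le_rfl, fun _ _ => rfl, Finset.Subset.refl _, Finset.Subset.refl _⟩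
  le_trans p q r h h' := ⟨h'.1.trans h.1, fun m hm => (h.2.1 m (hm.trans_le h'.1)).trans
    (h'.2.1 m hm), h'.2.2.1.trans h.2.2.1, h'.2.2.2.trans h.2.2.2⟩
  le_antisymm p q h h' := by
    have hd : p.d = q.d := le_antisymm h'.1 h.1
    refine PC.ext hd ?_ (Finset.Subset.antisymm h'.2.2.1 h.2.2.1)
      (Finset.Subset.antisymm h'.2.2.2 h.2.2.2)
    funext m
    rcases lt_or_ge m q.d with hm | hm
    · exact h.2.1 m hm
    · rw [q.low m hm, p.low m (hd ▸ hm)]

theorem le_def {p q : PC.{u}} :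
    p ≤ q ↔ q.d ≤ p.d ∧ (∀ m < q.d, p.t m = q.t m) ∧ q.e ⊆ p.e ∧ q.I ⊆ p.I := Iff.rfl

end PC

end Pool.Agent.Lib.MP_e6fef2_lc
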