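import Pool.Agent.Lib.MP_e6fef2_lc.Bridge
import Pool.Agent.Lib.MP_e6fef2_lc.TreeDefs
import Pool.Agent.Lib.MP_e6fef2_lc.H86.WFacts
import Pool.Agent.Lib.MP_e6fef2_lc.V.Assembly
import Pool.Agent.Lib.MP_c5d73d_lc.F.H62.Roapi

/-!
# The final assembly, from the statements of the modules
-/

universe u

open Cardinal

namespace Pool.Agent.Lib.MP_e6fef2_lc

open Pool.Agent.Lib.MP_100a6c_lc
open Pool.Agent.Lib.MP_c5d73d_lc.F (pr ZFC)

/-- The tree forcing has strongly generic conditions. -/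
def TreeSgcStatement : Prop := ∀ I : Type u, SGC (TC I)

/-- The tree forcing has the chain condition and is small. -/
def TreeKcStatement : Prop := ∀ (κ : Cardinal.{u}) (I : Type u) [LinearOrder I] [WellFoundedLT I],
  Idx κ I → KC I (TC I) ∧ #(TC I) ≤ κ

/-- The combinatorial part. -/
def CombStatement : Prop := ∀ (κ : Cardinal.{u}) (I : Type u) [LinearOrder I] [WellFoundedLT I],
  Idx κ I → ∀ (B : Type u) [CompleteBooleanAlgebra B] (ι : H1.RO (TC I) → B),
    IModel κ I (TC I) B ι →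
      ∃ v : PC.{u} → B, ⨆ x, v x = ⊤ ∧ TSize v ∧ TSSP v ∧ TNFA v

theorem W_least : ∃ o : W.{u}, ∀ x, o ≤ x := by
  have hne : Nonempty W.{u} := by
    by_contra h
    rw [not_nonempty_iff] at h
    exact (H86.W_uncountable.{u}).1 inferInstance
  obtain ⟨o, _, ho⟩ := WellFounded.has_min (α := W.{u}) (r := (· < ·)) wellFounded_lt Set.univ
    Set.univ_nonempty
  exact ⟨o, fun x => not_lt.1 (ho x (Set.mem_univ x))⟩

instance (I : Type u) : Nonempty (TC I) := by
  classical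
  obtain ⟨o, ho⟩ := W_least.{u}
  refine ⟨⟨o, fun e => if e = o then {fun _ => false} else ∅, ∅, fun _ _ => false, ?_, ?_, ?_, ?_,
    ?_, ?_, ?_, ?_, ?_, ?_⟩⟩
  · intro e _ u hu m _
    by_cases h : e = o
    · simp only [h, if_true, Set.mem_singleton_iff] at hu
      rw [hu]
    · simp [h] at hu
  · intro e _
    by_cases h : e = o <;> simp [h]
  · intro e _ e' he' u hu
    by_cases h : e = o
    · subst h
      obtain rfl : e' = e := le_antisymm he' (ho _)
      simp only [if_true, Set.mem_singleton_iff] at hu ⊢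
      rw [hu]
      funext m
      exact cutb_of_le (ho m)
    · simp [h] at hu
  · intro e he e' he' u hu
    obtain rfl : e = o := le_antisymm he (ho _)
    obtain rfl : e' = e := le_antisymm he' (ho _)
    refine ⟨u, hu, ?_⟩
    simp only [if_true, Set.mem_singleton_iff] at hu
    rw [hu]
    funext m
    exact cutb_of_le (ho m)
  · intro e he
    exact absurd he (not_lt.2 (ho e))
  · simp
  · intro e he
    simp [he.ne']
  · exact Set.countable_empty
  · intro x hx
    exact absurd hx (Set.notMem_empty x)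
  · intro x _
    rfl

/-- The final assembly. -/
theorem final_of_all (hIdx : IdxStatement.{u}) (hIter : IterStatement.{u})
    (hSgc : TreeSgcStatement.{u}) (hKc : TreeKcStatement.{u}) (hComb : CombStatement.{u})
    (h2 : Br2Statement.{u}) (h3 : Br3Statement.{u})
    (hP : VPfaStatement.{u}) (hM : VMmStatement.{u}) (hL : VLosStatement.{u})
    (κ : Cardinal.{u}) (hκ : κ.IsInaccessible) :
    (∃ (B : Type u) (_ : CompleteBooleanAlgebra B), (⊥ : B) ≠ ⊤ ∧
      ZFC (VB B) = ⊤ ∧ PFA1 (VB B) = ⊤ ∧ MM1 (VB B) = ⊥) ∧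
    ∃ (M : Type (u + 1)) (E : M → M → Prop),
      ZFC (⟨E, Eq⟩ : Str Prop M) ∧ PFA1 (⟨E, Eq⟩ : Str Prop M) ∧
        ¬ MM1 (⟨E, Eq⟩ : Str Prop M) := by
  have hI := hIdx.1 κ hκ
  obtain ⟨hkc, hcard⟩ := hKc κ κ.ord.ToType hI
  obtain ⟨B, inst, ι, hB⟩ := hIter κ κ.ord.ToType hI (TC κ.ord.ToType) (hSgc _) hkc hcard
  obtain ⟨v, hv, hs, hp, hn⟩ := hComb κ κ.ord.ToType hI B ι hB
  have hnt : (⊥ : B) ≠ ⊤ := by
    intro h
    obtain ⟨s⟩ : Nonempty (TC κ.ord.ToType) := inferInstance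
    have h1 : ι (pr s) = ι (pr s)ᶜ := by
      rw [hB.ce.compl]
      exact le_antisymm (le_trans le_top (h ▸ bot_le)) (le_trans le_top (h ▸ bot_le))
    have h2 := hB.ce.inj h1
    refine Pool.Agent.Lib.MP_c5d73d_lc.F.H62.pr_ne_bot s ?_
    have h3 := inf_compl_eq_bot (a := (pr s : H1.RO (TC κ.ord.ToType)))
    rwa [← h2, inf_idem] at h3
  have hm : Model B PC.{u} v := ⟨hnt, h2 _ (hSgc _) B ι hB.ce hB.pe, h3 B hB.pfa, hv, hs, hp, hn⟩
  obtain ⟨h4, h5⟩ := final_of hP hM hL hm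
  exact ⟨⟨B, inst, h4⟩, h5⟩

end Pool.Agent.Lib.MP_e6fef2_lc
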