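import Pool.Agent.Lib.MP_e6fef2_lc.Final
import Pool.Agent.Lib.MP_e6fef2_lc.Iteration
import Pool.Agent.Lib.MP_e6fef2_lc.V.Full
import Pool.Agent.Lib.MP_e6fef2_lc.H96.Tcard

/-!
# The main theorem, from the combinatorial part
-/

universe u

open Cardinal

namespace Pool.Agent.Lib.MP_e6fef2_lc

open Pool.Agent.Lib.MP_100a6c_lc
open Pool.Agent.Lib.MP_c5d73d_lc.F (pr ZFC)

theorem tree_kc : TreeKcStatement.{u} := fun κ I _ _ hI =>
  ⟨H53.kctc all_idx all_clo κ I hI, H96.tcard all_idx κ I hI⟩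

/-- The main theorem. -/
theorem main_of (hSgc : TreeSgcStatement.{u}) (hComb : CombStatement.{u}) (κ : Cardinal.{u})
    (hκ : κ.IsInaccessible) :
    (∃ (B : Type u) (_ : CompleteBooleanAlgebra B), (⊥ : B) ≠ ⊤ ∧
      ZFC (VB B) = ⊤ ∧ PFA1 (VB B) = ⊤ ∧ MM1 (VB B) = ⊥) ∧
    ∃ (M : Type (u + 1)) (E : M → M → Prop),
      ZFC (⟨E, Eq⟩ : Str Prop M) ∧ PFA1 (⟨E, Eq⟩ : Str Prop M) ∧
        ¬ MM1 (⟨E, Eq⟩ : Str Prop M) :=
  final_of_all all_idx iteration hSgc tree_kc hComb all_br2 all_br3 vpfa_full vmm_full H7.v_los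
    κ hκ

theorem main_absolute (hSgc : TreeSgcStatement.{1}) (hComb : CombStatement.{1}) :
    ∃ (M : Type 2) (E : M → M → Prop),
      ZFC (⟨E, Eq⟩ : Str Prop M) ∧ PFA1 (⟨E, Eq⟩ : Str Prop M) ∧
        ¬ MM1 (⟨E, Eq⟩ : Str Prop M) :=
  (main_of hSgc hComb Cardinal.univ.{0, 1} Cardinal.IsInaccessible.univ).2

end Pool.Agent.Lib.MP_e6fef2_lc
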