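import Pool.Agent.Lib.MP_e6fef2_lc.Main
import Pool.Agent.Lib.MP_e6fef2_lc.H77.CombSsp
import Pool.Agent.Lib.MP_e6fef2_lc.H27.Nfa
import Pool.Agent.Lib.MP_e6fef2_lc.H86.Sgc

/-!
# The main theorem
-/

universe u

open Cardinal

namespace Pool.Agent.Lib.MP_e6fef2_lc

open Pool.Agent.Lib.MP_100a6c_lc
open Pool.Agent.Lib.MP_c5d73d_lc.F (pr ZFC)

/-- The poset is not a counterexample to the forcing axiom. -/
def NfaStatement : Prop := ∀ (κ : Cardinal.{u}) (I : Type u) [LinearOrder I] [WellFoundedLT I],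
  Idx κ I → ∀ (B : Type u) [CompleteBooleanAlgebra B] (ι : H1.RO (TC I) → B),
    IModel κ I (TC I) B ι → TNFA (H27.pv fun s => ι (pr s))

theorem tree_sgc : TreeSgcStatement.{u} := H86.tree_sgc

theorem comb_of (hN : NfaStatement.{u}) : CombStatement.{u} := by
  intro κ I _ _ hI B _ ι hB
  have he := H27.se_of hB.ce
  exact ⟨H27.pv fun s => ι (pr s), H27.iSup_pv he, H27.tsize he,
    H77.ssp_of all_idx all_club all_gen all_xnz hI (H53.kctc all_idx all_clo κ I hI)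
      (H86.tree_sgc I) hB, hN κ I hI B ι hB⟩

theorem nfa_full : NfaStatement.{u} := by
  intro κ I _ _ hI B _ ι hB
  have hu : Uncountable I := by
    rw [← Cardinal.aleph0_lt_mk_iff, hI.card]
    exact hI.unc
  have hk : H27.K2n I := by
    filter_upwards [H86.k2n I] with N hN s hs
    obtain ⟨t, ht, h1, d, h2, h3, h4, h5, h6⟩ := hN s hs
    exact ⟨t, ht, h1, d, h2, h3, fun x hx => by rw [h4] at hx; exact hx,
      fun v hv => by rw [h5] at hv; exact hv, fun x _ => h6 x⟩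
  exact H27.nfa all_club all_gen all_xnz (H86.tree_sgc I) hk ι hB.ce hB.pe

/-- The combinatorial part. -/
theorem comb_full : CombStatement.{u} := comb_of nfa_full

/-- The main theorem. -/
theorem main_full (κ : Cardinal.{u}) (hκ : κ.IsInaccessible) :
    (∃ (B : Type u) (_ : CompleteBooleanAlgebra B), (⊥ : B) ≠ ⊤ ∧
      ZFC (VB B) = ⊤ ∧ PFA1 (VB B) = ⊤ ∧ MM1 (VB B) = ⊥) ∧
    ∃ (M : Type (u + 1)) (E : M → M → Prop),
      ZFC (⟨E, Eq⟩ : Str Prop M) ∧ PFA1 (⟨E, Eq⟩ : Str Prop M) ∧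
        ¬ MM1 (⟨E, Eq⟩ : Str Prop M) :=
  main_of tree_sgc comb_full κ hκ

/-- The main theorem without a hypothesis. -/
theorem main_absolute' : ∃ (M : Type 2) (E : M → M → Prop),
    ZFC (⟨E, Eq⟩ : Str Prop M) ∧ PFA1 (⟨E, Eq⟩ : Str Prop M) ∧
      ¬ MM1 (⟨E, Eq⟩ : Str Prop M) :=
  main_absolute tree_sgc comb_full

end Pool.Agent.Lib.MP_e6fef2_lc
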